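import Pool.Agent.W_c2305b_h77.FatDefs2
import Pool.Agent.W_c2305b_h68.Chain
import Pool.Agent.W_c2305b_h68.Tri

/-!
# MP_c2305b_co, FAT bricks N1 and N2

A convex set of almost full area in a copy of a near parallelogram is near the parallelogram;
rotation of the frame by 90 degrees.
-/

open MeasureTheory Set Module

namespace C2305bFat

open W82
open C2305b.TL (cr)

lemma fr_zero (o A B z : V) : fr o A B z 0 = o 0 + z 0 * A 0 + z 1 * B 0 := by
  simp [fr]

lemma fr_one (o A B z : V) : fr o A B z 1 = o 1 + z 0 * A 1 + z 1 * B 1 := by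
  simp [fr]

lemma fr_eq_lmap (o A B z : V) : fr o A B z = o + C2305bH68.Tri.lmap A B z := by
  rw [C2305bH68.Tri.lmap_apply]
  simp only [fr, add_assoc]

theorem fr_rot (o A B z : V) : fr o B (-A) z = fr o A B (rt z) := by
  ext i
  fin_cases i <;> simp [fr, rt] <;> ring

theorem continuous_fr (o A B : V) : Continuous fun z : V => fr o A B z := by
  unfold fr
  fun_prop

theorem fr_add_smul (o A B x y : V) {a b : ℝ} (hab : a + b = 1) :
    fr o A B (a • x + b • y) = a • fr o A B x + b • fr o A B y := by
  ext i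
  fin_cases i
  · simp [fr]
    linear_combination (- o 0) * hab
  · simp [fr]
    linear_combination (- o 1) * hab

/-- the inverse of the frame map. -/
noncomputable def frInv (o A B x : V) : V :=
  !₂[cr (x - o) B * (cr A B)⁻¹, cr A (x - o) * (cr A B)⁻¹]

theorem fr_frInv {A B : V} (h : cr A B ≠ 0) (o x : V) : fr o A B (frInv o A B x) = x := by
  have h1 : (A 0 * B 1 - A 1 * B 0) * (A 0 * B 1 - A 1 * B 0)⁻¹ = 1 := mul_inv_cancel₀ h
  ext i
  fin_cases i
  · simp [fr, frInv, cr]
    linear_combination (x 0 - o 0) * h1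
  · simp [fr, frInv, cr]
    linear_combination (x 1 - o 1) * h1

theorem frInv_fr {A B : V} (h : cr A B ≠ 0) (o z : V) : frInv o A B (fr o A B z) = z := by
  have h1 : (A 0 * B 1 - A 1 * B 0) * (A 0 * B 1 - A 1 * B 0)⁻¹ = 1 := mul_inv_cancel₀ h
  ext i
  fin_cases i
  · simp [fr, frInv, cr]
    linear_combination z 0 * h1
  · simp [fr, frInv, cr]
    linear_combination z 1 * h1

theorem continuous_frInv (o A B : V) : Continuous fun x : V => frInv o A B x := by
  unfold frInv cr
  fun_prop

theorem volume_fr (o A B : V) (S : Set V) :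
    volume ((fun z => fr o A B z) '' S) = ENNReal.ofReal |cr A B| * volume S := by
  have : (fun z => fr o A B z) '' S = (fun x => o + x) '' (C2305bH68.Tri.lmap A B '' S) := by
    rw [image_image]
    refine image_congr fun z _ => ?_
    exact fr_eq_lmap o A B z
  rw [this, image_add_left, measure_preimage_add, Measure.addHaar_image_linearMap,
    C2305bH68.Tri.det_lmap]

/-- half of a small square is cut off by a line through its centre. -/
theorem volume_half {z0 : V} {δ : ℝ} (hδ : 0 ≤ δ) (g : V →L[ℝ] ℝ) :
    ENNReal.ofReal (2 * δ ^ 2) ≤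
      volume (C2305bH68.box (z0 0 - δ) (z0 0 + δ) (z0 1 - δ) (z0 1 + δ) ∩ {z | g z0 ≤ g z}) := by
  set Q := C2305bH68.box (z0 0 - δ) (z0 0 + δ) (z0 1 - δ) (z0 1 + δ) with hQ
  have hQv : volume Q = ENNReal.ofReal (4 * δ ^ 2) := by
    rw [hQ, C2305bH68.volume_box (by linarith)]
    congr 1
    ring
  set w : V := z0 + z0 with hw
  let r : V → V := fun x => w - x
  have hr : MeasurePreserving r volume volume :=
    Measure.measurePreserving_sub_left (volume : Measure V) w
  have hQm : MeasurableSet Q := by
    have h0 : Measurable fun x : V => x 0 := by fun_prop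
    have h1 : Measurable fun x : V => x 1 := by fun_prop
    exact (measurableSet_le measurable_const h0).inter
      ((measurableSet_le h0 measurable_const).inter ((measurableSet_le measurable_const h1).inter
        (measurableSet_le h1 measurable_const)))
  have hgm : Measurable fun x : V => g x := g.continuous.measurable
  have hHm : MeasurableSet (Q ∩ {z | g z0 ≤ g z}) :=
    hQm.inter (measurableSet_le measurable_const hgm)
  have h1 : volume (r ⁻¹' (Q ∩ {z | g z0 ≤ g z})) = volume (Q ∩ {z | g z0 ≤ g z}) :=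
    hr.measure_preimage hHm.nullMeasurableSet
  have h2 : Q ⊆ (Q ∩ {z | g z0 ≤ g z}) ∪ r ⁻¹' (Q ∩ {z | g z0 ≤ g z}) := by
    intro x hx
    rcases le_total (g z0) (g x) with h | h
    · exact Or.inl ⟨hx, h⟩
    · right
      have e0 : (r x) 0 = z0 0 + z0 0 - x 0 := by simp [r, hw]
      have e1 : (r x) 1 = z0 1 + z0 1 - x 1 := by simp [r, hw]
      obtain ⟨a1, a2, a3, a4⟩ := hx
      refine ⟨⟨?_, ?_, ?_, ?_⟩, ?_⟩
      · rw [e0]; linarith
      · rw [e0]; linarith
      · rw [e1]; linarith
      · rw [e1]; linarith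
      · change g z0 ≤ g (w - x)
        rw [hw, map_sub, map_add]
        linarith
  have h3 := (measure_mono (μ := (volume : Measure V)) h2).trans (measure_union_le _ _)
  rw [h1, hQv, ← two_mul] at h3
  have h4 : ENNReal.ofReal (4 * δ ^ 2) = 2 * ENNReal.ofReal (2 * δ ^ 2) := by
    rw [show (4 : ℝ) * δ ^ 2 = 2 * (2 * δ ^ 2) by ring, ENNReal.ofReal_mul (by norm_num)]
    norm_num
  rw [h4] at h3
  exact (ENNReal.mul_le_mul_iff_right (by norm_num) (by norm_num)).1 h3

/-- (N1) a convex set of area at least `4 - c0` in a copy of `K` is near the parallelogram. -/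
theorem near_of_area {δ : ℝ} (hδ : 0 < δ) : ∃ c0 > (0 : ℝ), ∃ s > (0 : ℝ), ∀ (K X : Set V)
    (T σ : ℝ) (o A B : V), 0 < σ → σ ≤ s → NF K T σ → cr A B = 1 → Convex ℝ X → IsCompact X →
    X ⊆ (fun z => fr o A B z) '' K → 4 - c0 ≤ (volume X).toReal → Near δ o A B X := by
  set d : ℝ := min δ 1 with hd
  have hd0 : 0 < d := lt_min hδ one_pos
  have hd1 : d ≤ 1 := min_le_right _ _
  have hdδ : d ≤ δ := min_le_left _ _
  refine ⟨d ^ 2, by positivity, d ^ 2 / 64, by positivity, ?_⟩
  intro K X T σ o A B hσ hσs hK hcr hX hXc hXK hvol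
  have hcr0 : cr A B ≠ 0 := by rw [hcr]; norm_num
  have hd2 : d ^ 2 ≤ d := by nlinarith
  have hσd : 2 * σ ≤ δ := by nlinarith
  -- the preimage
  set Y : Set V := (fun z => fr o A B z) ⁻¹' X with hY
  have hYX : (fun z => fr o A B z) '' Y = X := by
    refine image_preimage_eq_of_subset ?_
    intro x _
    exact ⟨frInv o A B x, fr_frInv hcr0 o x⟩
  have hYK : Y ⊆ K := by
    intro z hz
    obtain ⟨z', hz', h⟩ := hXK hz
    have : z' = z := by
      have := congrArg (frInv o A B) h
      simpa [frInv_fr hcr0] using this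
    rwa [← this]
  have hYv : volume Y = volume X := by
    have := volume_fr o A B Y
    rw [hYX, hcr] at this
    simpa using this.symm
  have hYconv : Convex ℝ Y := by
    intro x hx y hy a b ha hb hab
    change fr o A B (a • x + b • y) ∈ X
    rw [fr_add_smul o A B x y hab]
    exact hX hx hy ha hb hab
  have hYcl : IsClosed Y := hXc.isClosed.preimage (continuous_fr o A B)
  refine ⟨?_, ?_⟩
  · intro z0 h0 h1
    by_contra hz
    have hz' : z0 ∉ Y := hz
    obtain ⟨g, u, hg1, hg2⟩ := geometric_hahn_banach_closed_point hYconv hYcl hz'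
    have h0' := abs_le.1 h0
    have h1' := abs_le.1 h1
    set H := C2305bH68.box (z0 0 - d) (z0 0 + d) (z0 1 - d) (z0 1 + d) ∩ {z | g z0 ≤ g z}
      with hH
    have hHv := volume_half (z0 := z0) hd0.le g
    rw [← hH] at hHv
    have hbox : Y ∪ H ⊆ C2305bH68.box (-1 - 2 * σ) (1 + 2 * σ) (-1 - 2 * σ) (1 + 2 * σ) := by
      rintro z (hz | hz)
      · have a0 := abs_le.1 (hK.bx0 z (hYK hz))
        have a1 := abs_le.1 (hK.bx1 z (hYK hz))
        exact ⟨by linarith [a0.1], by linarith [a0.2], by linarith [a1.1], by linarith [a1.2]⟩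
      · obtain ⟨⟨a1, a2, a3, a4⟩, _⟩ := hz
        exact ⟨by linarith, by linarith, by linarith, by linarith⟩
    have hdisj : Disjoint Y H := by
      rw [Set.disjoint_left]
      intro z hz hz2
      have a1 := hg1 z hz
      have a2 : g z0 ≤ g z := hz2.2
      linarith
    have hHm : MeasurableSet H := by
      have h0 : Measurable fun x : V => x 0 := by fun_prop
      have h1 : Measurable fun x : V => x 1 := by fun_prop
      exact ((measurableSet_le measurable_const h0).inter
        ((measurableSet_le h0 measurable_const).inter ((measurableSet_le measurable_const h1).inter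
        (measurableSet_le h1 measurable_const)))).inter
        (measurableSet_le measurable_const g.continuous.measurable)
    have h5 := measure_mono (μ := (volume : Measure V)) hbox
    rw [measure_union hdisj hHm, C2305bH68.volume_box (by linarith)] at h5
    have hYt : volume Y ≠ ⊤ := by
      rw [hYv]
      exact hXc.measure_lt_top.ne
    have h6 : ENNReal.ofReal (4 - d ^ 2) ≤ volume Y := by
      rw [hYv]
      rw [hYv] at hYt
      rw [← ENNReal.ofReal_toReal hYt]
      exact ENNReal.ofReal_le_ofReal hvol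
    have h7 := (add_le_add h6 hHv).trans h5
    rw [← ENNReal.ofReal_add (by nlinarith) (by positivity)] at h7
    have h8 := (ENNReal.ofReal_le_ofReal_iff (by nlinarith)).1 h7
    nlinarith
  · intro x hx
    obtain ⟨z, hz, h⟩ := hXK hx
    refine ⟨z, ?_, ?_, h.symm⟩
    · have := hK.bx0 z hz
      linarith
    · have := hK.bx1 z hz
      linarith

/-- (N2) rotation by 90 degrees: the linear isometry. -/
theorem rt_eq_lmap (z : V) : rt z = C2305bH68.Tri.lmap !₂[0, 1] !₂[-1, 0] z := by
  rw [C2305bH68.Tri.lmap_apply]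
  ext i
  fin_cases i <;> simp [rt]

theorem rt_rt (z : V) : rt (rt z) = -z := by
  ext i
  fin_cases i <;> simp [rt]

theorem continuous_rt : Continuous rt := by
  unfold rt
  fun_prop

theorem volume_rt_image (S : Set V) : volume (rt '' S) = volume S := by
  have : rt '' S = C2305bH68.Tri.lmap !₂[0, 1] !₂[-1, 0] '' S :=
    image_congr fun z _ => rt_eq_lmap z
  rw [this, Measure.addHaar_image_linearMap, C2305bH68.Tri.det_lmap]
  simp [cr]

theorem rt_injective : Function.Injective rt := by
  intro a b h
  have := congrArg rt h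
  rw [rt_rt, rt_rt] at this
  exact neg_injective this

theorem NF.rot {K : Set V} {T σ : ℝ} (h : NF K T σ) : NF {z | rt z ∈ K} T σ := by
  have e0 : ∀ z : V, rt z 0 = - z 1 := fun z => by simp [rt]
  have e1 : ∀ z : V, rt z 1 = z 0 := fun z => by simp [rt]
  have hK : {z | rt z ∈ K} = rt '' K := by
    ext z
    constructor
    · intro hz
      refine ⟨-(rt z), h.sym _ hz, ?_⟩
      have : rt (-(rt z)) = - rt (rt z) := by
        ext i
        fin_cases i <;> simp [rt]
      rw [this, rt_rt, neg_neg]
    · rintro ⟨y, hy, rfl⟩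
      change rt (rt y) ∈ K
      rw [rt_rt]
      exact h.sym y hy
  refine ⟨?_, ?_, ?_, ?_, ?_, ?_, h.T0, h.T1, ?_⟩
  · intro x hx y hy a b ha hb hab
    change rt (a • x + b • y) ∈ K
    have : rt (a • x + b • y) = a • rt x + b • rt y := by
      ext i
      fin_cases i
      · simp [rt]
        ring
      · simp [rt]
    rw [this]
    exact h.conv hx hy ha hb hab
  · rw [hK]
    exact h.comp.image continuous_rt
  · intro z hz
    change rt (-z) ∈ K
    have : rt (-z) = - rt z := by
      ext i
      fin_cases i <;> simp [rt]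
    rw [this]
    exact h.sym _ hz
  · intro z h0 h1
    refine h.sq _ ?_ ?_
    · rw [e0, abs_neg]; exact h1
    · rw [e1]; exact h0
  · intro z hz
    have := h.bx1 _ hz
    rwa [e1] at this
  · intro z hz
    have := h.bx0 _ hz
    rwa [e0, abs_neg] at this
  · intro S hS hSK
    have h1 : ((S.image rt : Finset V) : Set V) ⊆ K := by
      intro x hx
      rw [Finset.coe_image] at hx
      obtain ⟨y, hy, rfl⟩ := hx
      exact hSK hy
    have h2 : (S.image rt).card = S.card := Finset.card_image_of_injective _ rt_injective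
    have h3 := h.area (S.image rt) (by rw [h2]; exact hS) h1
    rw [h2] at h3
    have h4 : convexHull ℝ ((S.image rt : Finset V) : Set V)
        = rt '' convexHull ℝ (S : Set V) := by
      have e : rt '' convexHull ℝ (S : Set V)
          = C2305bH68.Tri.lmap !₂[0, 1] !₂[-1, 0] '' convexHull ℝ (S : Set V) :=
        image_congr fun z _ => rt_eq_lmap z
      rw [e, LinearMap.image_convexHull, Finset.coe_image]
      congr 1
      exact image_congr fun z _ => rt_eq_lmap z
    rw [h4, volume_rt_image] at h3
    exact h3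

theorem Near.rot {δ : ℝ} {o A B : V} {X : Set V} (h : Near δ o A B X) : Near δ o B (-A) X := by
  have e0 : ∀ z : V, rt z 0 = - z 1 := fun z => by simp [rt]
  have e1 : ∀ z : V, rt z 1 = z 0 := fun z => by simp [rt]
  refine ⟨?_, ?_⟩
  · intro z h0 h1
    rw [fr_rot]
    refine h.inn _ ?_ ?_
    · rw [e0, abs_neg]; exact h1
    · rw [e1]; exact h0
  · intro x hx
    obtain ⟨z, h0, h1, rfl⟩ := h.out x hx
    refine ⟨-(rt z), ?_, ?_, ?_⟩
    · have : (-(rt z)) 0 = z 1 := by simp [rt]
      rw [this]; exact h1
    · have : (-(rt z)) 1 = - z 0 := by simp [rt]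
      rw [this, abs_neg]; exact h0
    · rw [fr_rot]
      congr 1
      ext i
      fin_cases i <;> simp [rt]

end C2305bFat
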