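import Pool.Agent.W_c2305b_h91.FatNear

/-!
# MP_c2305b_co, ALLFAT brick B3: the lean of a line which cuts off little area

`Bx h o A B K`: the set `K` lies between the parallelogram with centre `o` and half sides `A`, `B`
and the parallelogram blown up by `1 + h`.
-/

open MeasureTheory Set Module

namespace C2305bFat

open W82
open C2305b.TL (cr)

/-- `K` between the parallelogram and its blow up. -/
structure Bx (h : ℝ) (o A B : V) (K : Set V) : Prop where
  inn : ∀ z : V, |z 0| ≤ 1 → |z 1| ≤ 1 → fr o A B z ∈ K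
  out : ∀ x ∈ K, ∃ z : V, |z 0| ≤ 1 + h ∧ |z 1| ≤ 1 + h ∧ x = fr o A B z

theorem Bx.rot {h : ℝ} {o A B : V} {X : Set V} (H : Bx h o A B X) : Bx h o B (-A) X := by
  have e0 : ∀ z : V, rt z 0 = - z 1 := fun z => by simp [rt]
  have e1 : ∀ z : V, rt z 1 = z 0 := fun z => by simp [rt]
  refine ⟨?_, ?_⟩
  · intro z h0 h1
    rw [fr_rot]
    refine H.inn _ ?_ ?_
    · rw [e0, abs_neg]; exact h1
    · rw [e1]; exact h0
  · intro x hx
    obtain ⟨z, h0, h1, rfl⟩ := H.out x hx
    refine ⟨-(rt z), ?_, ?_, ?_⟩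
    · have : (-(rt z)) 0 = z 1 := by simp [rt]
      rw [this]; exact h1
    · have : (-(rt z)) 1 = - z 0 := by simp [rt]
      rw [this, abs_neg]; exact h0
    · rw [fr_rot]
      congr 1
      ext i
      fin_cases i <;> simp [rt]

theorem Bx.swap {h : ℝ} {o A B : V} {X : Set V} (H : Bx h o A B X) : Bx h o B A X := by
  have e : ∀ z : V, fr o B A z = fr o A B !₂[z 1, z 0] := by
    intro z
    ext i
    fin_cases i <;> simp [fr] <;> ring
  refine ⟨?_, ?_⟩
  · intro z h0 h1
    rw [e]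
    refine H.inn _ ?_ ?_
    · simpa using h1
    · simpa using h0
  · intro x hx
    obtain ⟨z, h0, h1, rfl⟩ := H.out x hx
    refine ⟨!₂[z 1, z 0], ?_, ?_, ?_⟩
    · simpa using h1
    · simpa using h0
    · rw [e]
      congr 1
      ext i
      fin_cases i <;> simp

/-- A triangle of the parallelogram beyond a line which supports `Y` has area at most `m`. -/
theorem tri_cut {K Y : Set V} {m : ℝ} {o A B : V}
    (hsq : ∀ z : V, |z 0| ≤ 1 → |z 1| ≤ 1 → fr o A B z ∈ K) (hYK : Y ⊆ K)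
    (hvol : volume K ≤ volume Y + ENNReal.ofReal m)
    (hfin : volume K ≠ ⊤) (hm : 0 ≤ m) {T p a b c : V} (hT : T ≠ 0)
    (hline : ∀ z ∈ Y, 0 ≤ cr T (z - p))
    (ha : |a 0| ≤ 1 ∧ |a 1| ≤ 1 ∧ cr T (fr o A B a - p) ≤ 0)
    (hb : |b 0| ≤ 1 ∧ |b 1| ≤ 1 ∧ cr T (fr o A B b - p) ≤ 0)
    (hc : |c 0| ≤ 1 ∧ |c 1| ≤ 1 ∧ cr T (fr o A B c - p) ≤ 0)
    (hpos : 0 < cr A B * cr (b - a) (c - a)) : cr A B * cr (b - a) (c - a) ≤ 2 * m := by
  set Δ : Set V := convexHull ℝ {fr o A B a, fr o A B b, fr o A B c} with hΔ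
  have hcr : cr (fr o A B b - fr o A B a) (fr o A B c - fr o A B a)
      = cr A B * cr (b - a) (c - a) := by
    simp [cr, fr]
    ring
  have hvΔ : volume Δ = ENNReal.ofReal (cr A B * cr (b - a) (c - a) / 2) := by
    rw [hΔ, C2305bH68.Tri.volume_tri (by rw [hcr]; exact hpos), hcr]
  have hΔK : Δ ⊆ K := by
    have h1 : Δ ⊆ (fun z => fr o A B z) '' {z : V | |z 0| ≤ 1 ∧ |z 1| ≤ 1} := by
      refine convexHull_min ?_ ?_
      · intro x hx
        rcases hx with rfl | rfl | rfl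
        · exact ⟨a, ⟨ha.1, ha.2.1⟩, rfl⟩
        · exact ⟨b, ⟨hb.1, hb.2.1⟩, rfl⟩
        · exact ⟨c, ⟨hc.1, hc.2.1⟩, rfl⟩
      · rintro _ ⟨x, hx, rfl⟩ _ ⟨y, hy, rfl⟩ s t hs ht hst
        refine ⟨s • x + t • y, ⟨?_, ?_⟩, fr_add_smul o A B x y hst⟩
        · have e : (s • x + t • y) 0 = s * x 0 + t * y 0 := by simp
          rw [e]
          have h1 := abs_le.1 hx.1
          have h2 := abs_le.1 hy.1
          rw [abs_le]
          constructor <;> nlinarith
        · have e : (s • x + t • y) 1 = s * x 1 + t * y 1 := by simp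
          rw [e]
          have h1 := abs_le.1 hx.2
          have h2 := abs_le.1 hy.2
          rw [abs_le]
          constructor <;> nlinarith
    intro x hx
    obtain ⟨z, hz, rfl⟩ := h1 hx
    exact hsq z hz.1 hz.2
  have hΔl : Δ ⊆ {z | cr T (z - p) ≤ 0} := by
    refine convexHull_min ?_ ?_
    · intro x hx
      rcases hx with rfl | rfl | rfl
      · exact ha.2.2
      · exact hb.2.2
      · exact hc.2.2
    · intro x hx y hy s t hs ht hst
      change cr T (s • x + t • y - p) ≤ 0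
      have e : cr T (s • x + t • y - p) = s * cr T (x - p) + t * cr T (y - p) := by
        simp [cr]
        linear_combination (T 0 * p 1 - T 1 * p 0) * hst
      rw [e]
      have h1 : cr T (x - p) ≤ 0 := hx
      have h2 : cr T (y - p) ≤ 0 := hy
      nlinarith
  have hΔm : MeasurableSet Δ := by
    have : IsCompact Δ := Set.Finite.isCompact_convexHull ℝ (Set.toFinite _)
    exact this.isClosed.measurableSet
  have hnull : volume (Y ∩ Δ) = 0 := by
    refine measure_mono_null ?_ (C2305bH68.Tri.null_line hT p)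
    rintro x ⟨hx, hx'⟩
    exact le_antisymm (hΔl hx') (hline x hx)
  have h1 := measure_union_add_inter (μ := (volume : Measure V)) Y hΔm
  rw [hnull, add_zero] at h1
  have h2 : volume (Y ∪ Δ) ≤ volume K := measure_mono (union_subset hYK hΔK)
  rw [h1] at h2
  have h3 := h2.trans hvol
  have hYf : volume Y ≠ ⊤ := ne_top_of_le_ne_top hfin (measure_mono hYK)
  have h4 := (ENNReal.add_le_add_iff_left hYf).1 h3
  rw [hvΔ] at h4
  have h5 := (ENNReal.ofReal_le_ofReal_iff hm).1 h4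
  linarith

theorem cr_line (o A B z zp : V) (t : ℝ) :
    cr (A + t • B) (fr o A B z - fr o A B zp) = cr A B * ((z 1 - zp 1) - t * (z 0 - zp 0)) := by
  simp [cr, fr]
  ring

theorem dir_ne_zero {A B : V} (hβ : 0 < cr A B) (t : ℝ) : A + t • B ≠ 0 := by
  intro h
  have h1 : cr (A + t • B) B = cr A B := by
    simp [cr]
    ring
  rw [h] at h1
  have h2 : cr (0 : V) B = 0 := by simp [cr]
  rw [h2] at h1
  linarith

/-- **The one sided bound, start point**: a line through the point `zp` with `Y` above it whose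
slope `t` is in `[0, 4]` has small slope. -/
theorem core_up {K Y : Set V} {h m l t : ℝ} {o A B : V} (H : Bx h o A B K) (hβ : 0 < cr A B)
    (hYK : Y ⊆ K) (hvol : volume K ≤ volume Y + ENNReal.ofReal m)
    (hfin : volume K ≠ ⊤) (hh : 0 ≤ h) (hm : 0 ≤ m) {zp : V} (hp0 : -(1 + h) ≤ zp 0)
    (hp1 : -(1 + h) ≤ zp 1) {x1 : ℝ} (hx1 : x1 ≤ 1 + h) (hl : l ≤ x1 - zp 0) (h4 : 4 * h ≤ l)
    (hl0 : 0 < l) (ht : 0 ≤ t) (ht4 : t ≤ 4)
    (hline : ∀ z ∈ Y, 0 ≤ cr (A + t • B) (z - fr o A B zp)) :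
    t * l ^ 2 ≤ 128 * (h + m / cr A B) := by
  have hmβ : 0 ≤ m / cr A B := div_nonneg hm hβ.le
  rcases ht.eq_or_lt with h0 | h0
  · rw [← h0]
    nlinarith
  set a0 : ℝ := max (zp 0) (-1) with ha0
  set b0 : ℝ := min x1 1 with hb0
  have a1 : zp 0 ≤ a0 := le_max_left _ _
  have a2 : -1 ≤ a0 := le_max_right _ _
  have a3 : a0 ≤ zp 0 + h := max_le (by linarith) (by linarith)
  have b1 : b0 ≤ x1 := min_le_left _ _
  have b2 : b0 ≤ 1 := min_le_right _ _
  have b3 : x1 - h ≤ b0 := le_min (by linarith) (by linarith)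
  have hw : l / 2 ≤ b0 - a0 := by linarith
  have hw2 : b0 - a0 ≤ 2 := by linarith
  have hl4 : l ≤ 4 := by linarith
  rcases lt_or_ge (t * (b0 - a0)) (2 * h) with hc | hc
  · have e1 : t * (l / 2) ≤ 2 * h := (mul_le_mul_of_nonneg_left hw ht).trans hc.le
    have e2 : t * l ^ 2 ≤ 16 * h := by nlinarith
    linarith
  · set M0 : ℝ := (a0 + b0) / 2 with hM0
    set g : ℝ := t * (b0 - a0) / 8 with hg
    have hg0 : 0 < g := by
      have : 0 < b0 - a0 := by linarith
      positivity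
    have hg1 : g ≤ 1 := by
      have : t * (b0 - a0) ≤ 4 * 2 := mul_le_mul ht4 hw2 (by linarith) (by norm_num)
      linarith
    have e3 : h ≤ t * (M0 - zp 0) := by
      have : t * (b0 - a0) / 2 ≤ t * (M0 - zp 0) := by
        have : t * ((b0 - a0) / 2) ≤ t * (M0 - zp 0) :=
          mul_le_mul_of_nonneg_left (by linarith) ht
        linarith
      linarith
    have e4 : h + g ≤ t * (b0 - zp 0) := by
      have : t * (b0 - a0) ≤ t * (b0 - zp 0) := mul_le_mul_of_nonneg_left (by linarith) ht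
      linarith
    have e5 : h ≤ t * (b0 - zp 0) := by linarith
    have key := tri_cut (a := !₂[M0, -1]) (b := !₂[b0, -1]) (c := !₂[b0, -1 + g]) H.inn hYK
      hvol hfin hm (dir_ne_zero hβ t) hline ?_ ?_ ?_ ?_
    · have e6 : cr (!₂[b0, -1] - !₂[M0, -1] : V) (!₂[b0, -1 + g] - !₂[M0, -1]) =
          (b0 - M0) * g := by
        simp [cr]
      rw [e6] at key
      have e7 : cr A B * (t * (b0 - a0) ^ 2) ≤ 32 * m := by
        have : (b0 - M0) * g = t * (b0 - a0) ^ 2 / 16 := by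
          rw [hM0, hg]; ring
        rw [this] at key
        linarith
      have e8 : t * (b0 - a0) ^ 2 ≤ 32 * (m / cr A B) := by
        have : t * (b0 - a0) ^ 2 ≤ 32 * m / cr A B := by
          rw [le_div_iff₀ hβ]; linarith
        linarith [mul_div_assoc 32 m (cr A B)]
      have e9 : (l / 2) ^ 2 ≤ (b0 - a0) ^ 2 := pow_le_pow_left₀ (by linarith) hw 2
      have e10 : t * (l / 2) ^ 2 ≤ t * (b0 - a0) ^ 2 := mul_le_mul_of_nonneg_left e9 ht
      nlinarith
    · refine ⟨?_, ?_, ?_⟩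
      · show |M0| ≤ 1
        rw [abs_le]; constructor <;> linarith
      · show |(-1 : ℝ)| ≤ 1
        norm_num
      · rw [cr_line]
        refine mul_nonpos_of_nonneg_of_nonpos hβ.le ?_
        show (-1 - zp 1) - t * (M0 - zp 0) ≤ 0
        linarith
    · refine ⟨?_, ?_, ?_⟩
      · show |b0| ≤ 1
        rw [abs_le]; constructor <;> linarith
      · show |(-1 : ℝ)| ≤ 1
        norm_num
      · rw [cr_line]
        refine mul_nonpos_of_nonneg_of_nonpos hβ.le ?_
        show (-1 - zp 1) - t * (b0 - zp 0) ≤ 0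
        linarith
    · refine ⟨?_, ?_, ?_⟩
      · show |b0| ≤ 1
        rw [abs_le]; constructor <;> linarith
      · show |(-1 + g : ℝ)| ≤ 1
        rw [abs_le]; constructor <;> linarith
      · rw [cr_line]
        refine mul_nonpos_of_nonneg_of_nonpos hβ.le ?_
        show (-1 + g - zp 1) - t * (b0 - zp 0) ≤ 0
        linarith
    · refine mul_pos hβ ?_
      have e6 : cr (!₂[b0, -1] - !₂[M0, -1] : V) (!₂[b0, -1 + g] - !₂[M0, -1]) =
          (b0 - M0) * g := by
        simp [cr]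
      rw [e6]
      refine mul_pos ?_ hg0
      linarith

/-- **The one sided bound, end point.** -/
theorem core_down {K Y : Set V} {h m l t : ℝ} {o A B : V} (H : Bx h o A B K) (hβ : 0 < cr A B)
    (hYK : Y ⊆ K) (hvol : volume K ≤ volume Y + ENNReal.ofReal m)
    (hfin : volume K ≠ ⊤) (hh : 0 ≤ h) (hm : 0 ≤ m) {zq : V} (hp0 : zq 0 ≤ 1 + h)
    (hp1 : -(1 + h) ≤ zq 1) {x0 : ℝ} (hx0 : -(1 + h) ≤ x0) (hl : l ≤ zq 0 - x0) (h4 : 4 * h ≤ l)
    (hl0 : 0 < l) (ht : t ≤ 0) (ht4 : -4 ≤ t)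
    (hline : ∀ z ∈ Y, 0 ≤ cr (A + t • B) (z - fr o A B zq)) :
    -t * l ^ 2 ≤ 128 * (h + m / cr A B) := by
  have hmβ : 0 ≤ m / cr A B := div_nonneg hm hβ.le
  rcases ht.eq_or_lt with h0 | h0
  · rw [h0]
    nlinarith
  set a0 : ℝ := max x0 (-1) with ha0
  set b0 : ℝ := min (zq 0) 1 with hb0
  have a1 : x0 ≤ a0 := le_max_left _ _
  have a2 : -1 ≤ a0 := le_max_right _ _
  have a3 : a0 ≤ x0 + h := max_le (by linarith) (by linarith)
  have b1 : b0 ≤ zq 0 := min_le_left _ _
  have b2 : b0 ≤ 1 := min_le_right _ _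
  have b3 : zq 0 - h ≤ b0 := le_min (by linarith) (by linarith)
  have hw : l / 2 ≤ b0 - a0 := by linarith
  have hw2 : b0 - a0 ≤ 2 := by linarith
  have hl4 : l ≤ 4 := by linarith
  obtain ⟨r, hr⟩ : ∃ r, r = -t := ⟨_, rfl⟩
  have hr0 : 0 < r := by linarith
  have hr4 : r ≤ 4 := by linarith
  rw [← hr]
  rcases lt_or_ge (r * (b0 - a0)) (2 * h) with hc | hc
  · have e1 : r * (l / 2) ≤ 2 * h := (mul_le_mul_of_nonneg_left hw hr0.le).trans hc.le
    have e2 : r * l ^ 2 ≤ 16 * h := by nlinarith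
    linarith
  · set M0 : ℝ := (a0 + b0) / 2 with hM0
    set g : ℝ := r * (b0 - a0) / 8 with hg
    have hg0 : 0 < g := by
      have : 0 < b0 - a0 := by linarith
      positivity
    have hg1 : g ≤ 1 := by
      have : r * (b0 - a0) ≤ 4 * 2 := mul_le_mul hr4 hw2 (by linarith) (by norm_num)
      linarith
    have e3 : h ≤ r * (zq 0 - M0) := by
      have : r * ((b0 - a0) / 2) ≤ r * (zq 0 - M0) :=
        mul_le_mul_of_nonneg_left (by linarith) hr0.le
      linarith
    have e4 : h + g ≤ r * (zq 0 - a0) := by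
      have : r * (b0 - a0) ≤ r * (zq 0 - a0) := mul_le_mul_of_nonneg_left (by linarith) hr0.le
      linarith
    have e5 : h ≤ r * (zq 0 - a0) := by linarith
    have ht' : t = -r := by linarith
    have key := tri_cut (a := !₂[a0, -1]) (b := !₂[M0, -1]) (c := !₂[a0, -1 + g]) H.inn hYK
      hvol hfin hm (dir_ne_zero hβ t) hline ?_ ?_ ?_ ?_
    · have e6 : cr (!₂[M0, -1] - !₂[a0, -1] : V) (!₂[a0, -1 + g] - !₂[a0, -1]) =
          (M0 - a0) * g := by
        simp [cr]
      rw [e6] at key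
      have e7 : cr A B * (r * (b0 - a0) ^ 2) ≤ 32 * m := by
        have : (M0 - a0) * g = r * (b0 - a0) ^ 2 / 16 := by
          rw [hM0, hg]; ring
        rw [this] at key
        linarith
      have e8 : r * (b0 - a0) ^ 2 ≤ 32 * (m / cr A B) := by
        have : r * (b0 - a0) ^ 2 ≤ 32 * m / cr A B := by
          rw [le_div_iff₀ hβ]; linarith
        linarith [mul_div_assoc 32 m (cr A B)]
      have e9 : (l / 2) ^ 2 ≤ (b0 - a0) ^ 2 := pow_le_pow_left₀ (by linarith) hw 2
      have e10 : r * (l / 2) ^ 2 ≤ r * (b0 - a0) ^ 2 := mul_le_mul_of_nonneg_left e9 hr0.le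
      nlinarith
    · refine ⟨?_, ?_, ?_⟩
      · show |a0| ≤ 1
        rw [abs_le]; constructor <;> linarith
      · show |(-1 : ℝ)| ≤ 1
        norm_num
      · rw [cr_line]
        refine mul_nonpos_of_nonneg_of_nonpos hβ.le ?_
        show (-1 - zq 1) - t * (a0 - zq 0) ≤ 0
        rw [ht']
        linarith
    · refine ⟨?_, ?_, ?_⟩
      · show |M0| ≤ 1
        rw [abs_le]; constructor <;> linarith
      · show |(-1 : ℝ)| ≤ 1
        norm_num
      · rw [cr_line]
        refine mul_nonpos_of_nonneg_of_nonpos hβ.le ?_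
        show (-1 - zq 1) - t * (M0 - zq 0) ≤ 0
        rw [ht']
        linarith
    · refine ⟨?_, ?_, ?_⟩
      · show |a0| ≤ 1
        rw [abs_le]; constructor <;> linarith
      · show |(-1 + g : ℝ)| ≤ 1
        rw [abs_le]; constructor <;> linarith
      · rw [cr_line]
        refine mul_nonpos_of_nonneg_of_nonpos hβ.le ?_
        show (-1 + g - zq 1) - t * (a0 - zq 0) ≤ 0
        rw [ht']
        linarith
    · refine mul_pos hβ ?_
      have e6 : cr (!₂[M0, -1] - !₂[a0, -1] : V) (!₂[a0, -1 + g] - !₂[a0, -1]) =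
          (M0 - a0) * g := by
        simp [cr]
      rw [e6]
      refine mul_pos ?_ hg0
      linarith

end C2305bFat
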